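import Pool.Agent.VM.StmtsH

/-! PPB: prime powers, the critical points are units. -/

set_option autoImplicit false

namespace Pool.Agent.VM.H94

open Finset
open Pool.Agent.Helper69_Weyl (ee norm_ee)

/-- counting a condition which is periodic modulo `q` -/
theorem card_period_le (q M : ℕ) (hq : 0 < q) (P Q : ℕ → Prop) [DecidablePred P] [DecidablePred Q]
    (h : ∀ y, P y → Q (y % q)) :
    ((range (q * M)).filter P).card ≤ M * ((range q).filter Q).card := by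
  rw [← card_range M, ← card_product, card_range]
  refine card_le_card_of_injOn (fun y => (y / q, y % q)) ?_ ?_
  · intro y hy
    rw [mem_coe, mem_filter, mem_range] at hy
    rw [mem_coe, mem_product, mem_range, mem_filter, mem_range]
    exact ⟨Nat.div_lt_of_lt_mul hy.1, Nat.mod_lt _ hq, h y hy.2⟩
  · intro y _ y' _ hyy
    simp only [Prod.mk.injEq] at hyy
    rw [← Nat.div_add_mod y q, ← Nat.div_add_mod y' q, hyy.1, hyy.2]

theorem ppb (k : ℕ) (hk : 3 ≤ k) (stp : StpStmt) (rtp : RtpStmt) : PpbStmt k := by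
  classical
  intro p e τ b m hp hb hτ hτ1 he hm hm1
  have hp0 : 0 < p := hp.pos
  set r := e / 2 with hr
  have hre : 2 * r ≤ e := Nat.mul_div_le e 2
  have hrτ : τ + 1 ≤ r := by omega
  have hs : e - r = (e + 1) / 2 := by omega
  have h1 := stp k p e r b m (by omega) hp0 hre
  rw [h1, norm_mul, norm_pow, Complex.norm_natCast]
  -- number of critical points
  obtain ⟨k', hk'⟩ := hτ
  obtain ⟨m', hm'⟩ := hm
  have hpz : (p : ℤ) ≠ 0 := by exact_mod_cast hp0.ne'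
  have hpp : Prime (p : ℤ) := Nat.prime_iff_prime_int.1 hp
  have hk'p : ¬ (p : ℤ) ∣ (k' : ℤ) := by
    intro hd
    apply hτ1
    have hd' : p ∣ k' := by exact_mod_cast hd
    rw [hk', pow_succ]
    exact Nat.mul_dvd_mul_left _ hd'
  have hm'p : ¬ (p : ℤ) ∣ m' := by
    intro hd
    apply hm1
    rw [hm', pow_succ]
    exact mul_dvd_mul_left _ hd
  have hkb : ¬ (p : ℤ) ∣ (k' : ℤ) * b := fun hd => (hpp.dvd_or_dvd hd).elim hk'p hb
  -- the inverse of `k' b` modulo `p ^ (r - τ)`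
  have hcop : IsCoprime ((k' : ℤ) * b) ((p : ℤ) ^ (r - τ)) := by
    apply IsCoprime.pow_right
    exact (Prime.coprime_iff_not_dvd hpp).2 hkb |>.symm
  obtain ⟨u, v, huv⟩ := hcop
  set c : ℤ := -(u * m') with hc
  have hcp : ¬ (p : ℤ) ∣ c := by
    intro hd
    rw [hc, dvd_neg] at hd
    rcases hpp.dvd_or_dvd hd with hd | hd
    · apply hpp.not_dvd_one
      rw [← huv]
      exact dvd_add (Dvd.dvd.mul_right hd _)
        (Dvd.dvd.mul_left (dvd_pow_self _ (by omega : r - τ ≠ 0)) _)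
    · exact hm'p hd
  have hcard : ((range (p ^ (e - r))).filter
      (fun y : ℕ => ((p : ℤ) ^ r) ∣ (k : ℤ) * b * (y : ℤ) ^ (k - 1) + m)).card ≤
      p ^ (e - r - (r - τ)) * (k - 1) ^ 3 := by
    have hpe : p ^ (e - r) = p ^ (r - τ) * p ^ (e - r - (r - τ)) := by
      rw [← pow_add]
      congr 1
      omega
    rw [hpe]
    refine (card_period_le (p ^ (r - τ)) (p ^ (e - r - (r - τ))) (pow_pos hp0 _) _
      (fun y : ℕ => ((p : ℤ) ^ (r - τ)) ∣ (y : ℤ) ^ (k - 1) - c) ?_).trans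
      (Nat.mul_le_mul_left _ (rtp p (k - 1) (r - τ) c hp (by omega) hcp))
    intro y hy
    have h2 : ((p : ℤ) ^ (r - τ)) ∣ (k' : ℤ) * b * (y : ℤ) ^ (k - 1) + m' := by
      have h3 : (k : ℤ) * b * (y : ℤ) ^ (k - 1) + m =
          (p : ℤ) ^ τ * ((k' : ℤ) * b * (y : ℤ) ^ (k - 1) + m') := by
        rw [hm', hk']
        push_cast
        ring
      rw [h3] at hy
      have h4 : (p : ℤ) ^ r = (p : ℤ) ^ τ * (p : ℤ) ^ (r - τ) := by
        rw [← pow_add]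
        congr 1
        omega
      rw [h4] at hy
      exact (mul_dvd_mul_iff_left (pow_ne_zero _ hpz)).1 hy
    have h5 : ((p : ℤ) ^ (r - τ)) ∣ (y : ℤ) ^ (k - 1) - c := by
      have h6 : (y : ℤ) ^ (k - 1) - c =
          u * ((k' : ℤ) * b * (y : ℤ) ^ (k - 1) + m') +
            (v * (y : ℤ) ^ (k - 1)) * (p : ℤ) ^ (r - τ) := by
        rw [hc]
        linear_combination (-(y : ℤ) ^ (k - 1)) * huv
      rw [h6]
      exact dvd_add (Dvd.dvd.mul_left h2 _) (Dvd.intro_left _ rfl)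
    have h7 : ((p : ℤ) ^ (r - τ)) ∣ (y : ℤ) ^ (k - 1) - ((y % p ^ (r - τ) : ℕ) : ℤ) ^ (k - 1) := by
      have h8 : ((p : ℤ) ^ (r - τ)) ∣ (y : ℤ) - ((y % p ^ (r - τ) : ℕ) : ℤ) := by
        have := Nat.div_add_mod y (p ^ (r - τ))
        refine ⟨((y / p ^ (r - τ) : ℕ) : ℤ), ?_⟩
        have h9 : (y : ℤ) = (p : ℤ) ^ (r - τ) * ((y / p ^ (r - τ) : ℕ) : ℤ) +
            ((y % p ^ (r - τ) : ℕ) : ℤ) := by exact_mod_cast this.symm
        linarith
      exact h8.trans (sub_dvd_pow_sub_pow _ _ _)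
    have h10 : ((y % p ^ (r - τ) : ℕ) : ℤ) ^ (k - 1) - c =
        ((y : ℤ) ^ (k - 1) - c) -
          ((y : ℤ) ^ (k - 1) - ((y % p ^ (r - τ) : ℕ) : ℤ) ^ (k - 1)) := by ring
    rw [h10]
    exact dvd_sub h5 h7
  have hsum : ‖∑ y ∈ (range (p ^ (e - r))).filter
        (fun y : ℕ => ((p : ℤ) ^ r) ∣ (k : ℤ) * b * (y : ℤ) ^ (k - 1) + m),
        ee (((b * (y : ℤ) ^ k + m * (y : ℤ) : ℤ) : ℝ) / ((p ^ e : ℕ) : ℝ))‖ ≤
      ((p ^ (e - r - (r - τ)) * (k - 1) ^ 3 : ℕ) : ℝ) := by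
    refine (norm_sum_le _ _).trans ?_
    simp only [norm_ee, sum_const, nsmul_eq_mul, mul_one]
    exact_mod_cast hcard
  have hkp : p ^ τ ≤ k := Nat.le_of_dvd (by omega) ⟨k', hk'⟩
  have hfin : p ^ r * (p ^ (e - r - (r - τ)) * (k - 1) ^ 3) ≤ k ^ 4 * p ^ ((e + 1) / 2) := by
    have h11 : p ^ r * p ^ (e - r - (r - τ)) = p ^ τ * p ^ ((e + 1) / 2) := by
      rw [← pow_add, ← pow_add]
      congr 1
      omega
    calc p ^ r * (p ^ (e - r - (r - τ)) * (k - 1) ^ 3)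
        = (p ^ τ * p ^ ((e + 1) / 2)) * (k - 1) ^ 3 := by rw [← h11]; ring
      _ ≤ (k * p ^ ((e + 1) / 2)) * k ^ 3 := by
          gcongr
          omega
      _ = k ^ 4 * p ^ ((e + 1) / 2) := by ring
  calc (p : ℝ) ^ r * _ ≤ (p : ℝ) ^ r * ((p ^ (e - r - (r - τ)) * (k - 1) ^ 3 : ℕ) : ℝ) := by
        gcongr
    _ = ((p ^ r * (p ^ (e - r - (r - τ)) * (k - 1) ^ 3) : ℕ) : ℝ) := by push_cast; ring
    _ ≤ ((k ^ 4 * p ^ ((e + 1) / 2) : ℕ) : ℝ) := by exact_mod_cast hfin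
    _ = (k : ℝ) ^ 4 * (p : ℝ) ^ ((e + 1) / 2) := by push_cast; ring

end Pool.Agent.VM.H94
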