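import Pool.Agent.VM.StmtsH

/-! MAJ: Weyl sums near rational numbers with small denominators. -/

set_option autoImplicit false

namespace Pool.Agent.VM.H94

open Finset
open Pool.Agent.Helper69_Weyl (ee W)

/-- `1 + log u ≤ C u ^ ε` -/
theorem one_add_log_le (ε : ℝ) (hε : 0 < ε) : ∃ C : ℝ, 0 < C ∧ ∀ u : ℕ, 1 ≤ u →
    1 + Real.log u ≤ C * (u : ℝ) ^ ε := by
  refine ⟨1 + 1 / ε, by positivity, fun u hu => ?_⟩
  have hu1 : (1 : ℝ) ≤ u := by exact_mod_cast hu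
  have h1 := Real.log_le_rpow_div (by linarith : (0 : ℝ) ≤ u) hε
  have h2 : (1 : ℝ) ≤ (u : ℝ) ^ ε := Real.one_le_rpow hu1 hε.le
  calc 1 + Real.log u ≤ (u : ℝ) ^ ε + (u : ℝ) ^ ε / ε := by linarith
    _ = (1 + 1 / ε) * (u : ℝ) ^ ε := by ring

theorem maj (k : ℕ) (hk : 2 ≤ k) (hua : HuaStmt k) (vbo : VboStmt k) (vfa : VfaStmt k)
    (cpl : CplStmt) (spl : SplStmt) : MajStmt k := by
  intro ε hε
  obtain ⟨C1, hC1, h1⟩ := hua (ε / 2) (by linarith)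
  obtain ⟨C2, hC2, h2⟩ := vbo
  obtain ⟨C3, hC3, h3⟩ := one_add_log_le (ε / 2) (by linarith)
  refine ⟨C1 * ((2 ^ (k + 1) + 5) * C2 + 12 * C3), by positivity, ?_⟩
  intro N u b t ξ hN hu hgcd hU
  set β : ℝ := t - (b : ℝ) / (u : ℝ) with hβ
  set T : ℝ := (N : ℝ) ^ k * |β| with hT
  set κ : ℝ := 1 / (k : ℝ) with hκ
  have hk0 : (0 : ℝ) < k := by exact_mod_cast (by omega : 0 < k)
  have hκ0 : 0 < κ := by positivity
  have hκ1 : κ ≤ 1 := by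
    rw [hκ, div_le_one hk0]
    exact_mod_cast (by omega : 1 ≤ k)
  have hu1 : (1 : ℝ) ≤ u := by exact_mod_cast hu
  have hu0 : (0 : ℝ) < u := by linarith
  have hN1 : (1 : ℝ) ≤ N := by exact_mod_cast hN
  have hN0 : (0 : ℝ) < N := by linarith
  have hT0 : 0 ≤ T := by positivity
  have hT1 : 0 < 1 + T := by linarith
  set U : ℝ := (u : ℝ) * (1 + T) with hUdef
  have huU : (u : ℝ) ≤ U := by
    rw [hUdef]
    nlinarith
  have hU0 : 0 < U := by linarith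
  have huN : (u : ℝ) ≤ N := huU.trans hU
  have huT : (u : ℝ) * T ≤ N := by
    have : (u : ℝ) * T ≤ U := by rw [hUdef]; nlinarith
    linarith
  have hTN : T ≤ N := by
    have : T ≤ (u : ℝ) * T := by nlinarith
    linarith
  -- completion
  have h4 := cpl k N u b β ξ hu
  have ht : (b : ℝ) / (u : ℝ) + β = t := by rw [hβ]; ring
  rw [ht] at h4
  set F : ℕ → ℝ := fun m => ‖W k N β (ξ - (m : ℝ) / (u : ℝ))‖ with hF
  set ρ : ℝ := 2 ^ k * |β| * (N : ℝ) ^ (k - 1) with hρ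
  set A : ℝ := C2 * (N : ℝ) * (1 + T) ^ (-κ) with hA
  have hρ0 : 0 ≤ ρ := by positivity
  have hA0 : 0 ≤ A := by positivity
  have h5 : ∀ m ∈ range u, F m ≤ A := by
    intro m _
    have h6 := h2 N β (ξ - (m : ℝ) / (u : ℝ)) hN (by
      rw [mul_comm]
      exact hTN)
    rw [mul_comm |β| ((N : ℝ) ^ k)] at h6
    exact h6
  have h7 : ∀ m ∈ range u, ∀ δ : ℝ, 0 < δ → δ ≤ 1 / 2 →
      (∀ z : ℤ, δ + ρ ≤ |ξ - (m : ℝ) / (u : ℝ) - (z : ℝ)|) → F m ≤ 3 / δ := by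
    intro m _ δ hδ hδ2 hz
    exact vfa N β (ξ - (m : ℝ) / (u : ℝ)) δ hN hδ hδ2 hz
  have h8 := spl u ξ ρ A F hu hρ0 hA0 h5 h7
  have hρu : ρ * (u : ℝ) ≤ 2 ^ k := by
    have h9 : ρ * (N : ℝ) = 2 ^ k * T := by
      rw [hρ, hT]
      have : (N : ℝ) ^ k = (N : ℝ) ^ (k - 1) * N := by
        rw [← pow_succ]
        congr 1
        omega
      rw [this]
      ring
    have h10 : (ρ * (u : ℝ)) * N ≤ 2 ^ k * N := by
      calc (ρ * (u : ℝ)) * N = (u : ℝ) * (ρ * N) := by ring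
        _ = 2 ^ k * ((u : ℝ) * T) := by rw [h9]; ring
        _ ≤ 2 ^ k * N := by gcongr
    exact le_of_mul_le_mul_right h10 hN0
  have h11 : ∑ m ∈ range u, F m ≤ (2 ^ (k + 1) + 5) * A + 12 * (u : ℝ) * (1 + Real.log u) := by
    refine h8.trans ?_
    have : 2 * ρ * (u : ℝ) + 5 ≤ 2 ^ (k + 1) + 5 := by
      rw [pow_succ]
      linarith
    gcongr
  have h12 : (u : ℝ) * ‖W k N t ξ‖ ≤
      C1 * (u : ℝ) ^ (1 - κ + ε / 2) * ∑ m ∈ range u, F m := by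
    have h13 : (u : ℝ) * ‖W k N t ξ‖ = ‖(u : ℂ) * W k N t ξ‖ := by
      rw [norm_mul, Complex.norm_natCast]
    rw [h13, h4, mul_sum]
    refine (norm_sum_le _ _).trans (sum_le_sum fun m _ => ?_)
    rw [norm_mul]
    exact mul_le_mul_of_nonneg_right (h1 u b m hu hgcd) (norm_nonneg _)
  -- powers
  have hpow1 : (u : ℝ) ^ (1 - κ + ε / 2) = (u : ℝ) * ((u : ℝ) ^ (-κ) * (u : ℝ) ^ (ε / 2)) := by
    rw [← Real.rpow_add hu0]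
    nth_rewrite 2 [← Real.rpow_one (u : ℝ)]
    rw [← Real.rpow_add hu0]
    congr 1
    ring
  have h14 : ‖W k N t ξ‖ ≤ C1 * ((u : ℝ) ^ (-κ) * (u : ℝ) ^ (ε / 2)) *
      ((2 ^ (k + 1) + 5) * A + 12 * (u : ℝ) * (1 + Real.log u)) := by
    have h15 : (u : ℝ) * ‖W k N t ξ‖ ≤ (u : ℝ) * (C1 * ((u : ℝ) ^ (-κ) * (u : ℝ) ^ (ε / 2)) *
        ((2 ^ (k + 1) + 5) * A + 12 * (u : ℝ) * (1 + Real.log u))) := by
      refine h12.trans ?_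
      rw [hpow1]
      calc C1 * ((u : ℝ) * ((u : ℝ) ^ (-κ) * (u : ℝ) ^ (ε / 2))) * ∑ m ∈ range u, F m
          ≤ C1 * ((u : ℝ) * ((u : ℝ) ^ (-κ) * (u : ℝ) ^ (ε / 2))) *
            ((2 ^ (k + 1) + 5) * A + 12 * (u : ℝ) * (1 + Real.log u)) := by gcongr
        _ = _ := by ring
    exact le_of_mul_le_mul_left h15 hu0
  have hUk : U ^ (-κ) = (u : ℝ) ^ (-κ) * (1 + T) ^ (-κ) := by
    rw [hUdef, Real.mul_rpow hu0.le hT1.le]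
  have hue : (u : ℝ) ^ (ε / 2) ≤ (N : ℝ) ^ (ε / 2) :=
    Real.rpow_le_rpow hu0.le huN (by linarith)
  have hNe : (N : ℝ) ^ (ε / 2) * (N : ℝ) ^ (ε / 2) = (N : ℝ) ^ ε := by
    rw [← Real.rpow_add hN0]
    congr 1
    ring
  have hNe1 : (1 : ℝ) ≤ (N : ℝ) ^ (ε / 2) := Real.one_le_rpow hN1 (by linarith)
  have hNN : (N : ℝ) ^ (1 + ε) = (N : ℝ) * (N : ℝ) ^ ε := by
    rw [Real.rpow_add hN0, Real.rpow_one]
  -- the first term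
  have h16 : ((u : ℝ) ^ (-κ) * (u : ℝ) ^ (ε / 2)) * A ≤ C2 * ((N : ℝ) ^ (1 + ε) * U ^ (-κ)) := by
    rw [hA, hUk, hNN]
    have hue2 : (u : ℝ) ^ (ε / 2) ≤ (N : ℝ) ^ ε := by
      rw [← hNe]
      nlinarith
    calc ((u : ℝ) ^ (-κ) * (u : ℝ) ^ (ε / 2)) * (C2 * (N : ℝ) * (1 + T) ^ (-κ))
        = (u : ℝ) ^ (ε / 2) * (C2 * N * ((u : ℝ) ^ (-κ) * (1 + T) ^ (-κ))) := by ring
      _ ≤ (N : ℝ) ^ ε * (C2 * N * ((u : ℝ) ^ (-κ) * (1 + T) ^ (-κ))) := by gcongr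
      _ = _ := by ring
  -- the second term
  have h17 : ((u : ℝ) ^ (-κ) * (u : ℝ) ^ (ε / 2)) * ((u : ℝ) * (1 + Real.log u)) ≤
      C3 * ((N : ℝ) ^ (1 + ε) * U ^ (-κ)) := by
    have h18 : (u : ℝ) ^ (-κ) * (u : ℝ) ≤ U ^ (-κ) * N := by
      have h19 : (u : ℝ) ^ (-κ) * (u : ℝ) = (u : ℝ) ^ (1 - κ) := by
        nth_rewrite 2 [← Real.rpow_one (u : ℝ)]
        rw [← Real.rpow_add hu0]
        congr 1
        ring
      have h20 : U ^ (-κ) * U = U ^ (1 - κ) := by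
        nth_rewrite 2 [← Real.rpow_one U]
        rw [← Real.rpow_add hU0]
        congr 1
        ring
      rw [h19]
      calc (u : ℝ) ^ (1 - κ) ≤ U ^ (1 - κ) := Real.rpow_le_rpow hu0.le huU (by linarith)
        _ = U ^ (-κ) * U := h20.symm
        _ ≤ U ^ (-κ) * N := by gcongr
    have h21 := h3 u hu
    calc ((u : ℝ) ^ (-κ) * (u : ℝ) ^ (ε / 2)) * ((u : ℝ) * (1 + Real.log u))
        = (1 + Real.log u) * (u : ℝ) ^ (ε / 2) * ((u : ℝ) ^ (-κ) * (u : ℝ)) := by ring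
      _ ≤ (C3 * (u : ℝ) ^ (ε / 2)) * (u : ℝ) ^ (ε / 2) * (U ^ (-κ) * N) := by gcongr
      _ ≤ (C3 * (N : ℝ) ^ (ε / 2)) * (N : ℝ) ^ (ε / 2) * (U ^ (-κ) * N) := by gcongr
      _ = C3 * ((N : ℝ) * ((N : ℝ) ^ (ε / 2) * (N : ℝ) ^ (ε / 2)) * U ^ (-κ)) := by ring
      _ = C3 * ((N : ℝ) ^ (1 + ε) * U ^ (-κ)) := by rw [hNe, hNN]
  calc ‖W k N t ξ‖ ≤ C1 * ((u : ℝ) ^ (-κ) * (u : ℝ) ^ (ε / 2)) *
      ((2 ^ (k + 1) + 5) * A + 12 * (u : ℝ) * (1 + Real.log u)) := h14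
    _ = C1 * ((2 ^ (k + 1) + 5) * (((u : ℝ) ^ (-κ) * (u : ℝ) ^ (ε / 2)) * A) +
        12 * (((u : ℝ) ^ (-κ) * (u : ℝ) ^ (ε / 2)) * ((u : ℝ) * (1 + Real.log u)))) := by ring
    _ ≤ C1 * ((2 ^ (k + 1) + 5) * (C2 * ((N : ℝ) ^ (1 + ε) * U ^ (-κ))) +
        12 * (C3 * ((N : ℝ) ^ (1 + ε) * U ^ (-κ)))) := by gcongr
    _ = C1 * ((2 ^ (k + 1) + 5) * C2 + 12 * C3) * (N : ℝ) ^ (1 + ε) * U ^ (-κ) := by ring

end Pool.Agent.VM.H94
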