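import Pool.Agent.VM.StmtsH

/-! VFA: no stationary point. -/

set_option autoImplicit false

namespace Pool.Agent.VM.H94

open Finset
open Pool.Agent.Helper69_Weyl (ee W)

theorem pow_diff_eq (k : ℕ) (x : ℝ) :
    (x + 1) ^ k - x ^ k = ∑ i ∈ range k, (x + 1) ^ i * x ^ (k - 1 - i) := by
  have h := (Commute.all (x + 1) x).geom_sum₂_mul k
  rw [← h]
  ring

theorem pow_diff_nonneg (k : ℕ) (x : ℝ) (hx : 0 ≤ x) : 0 ≤ (x + 1) ^ k - x ^ k := by
  rw [pow_diff_eq]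
  exact Finset.sum_nonneg fun i _ => by positivity

theorem pow_diff_le (k : ℕ) (x y : ℝ) (hx : 0 ≤ x) (hxy : x + 1 ≤ y) :
    (x + 1) ^ k - x ^ k ≤ 2 ^ k * y ^ (k - 1) := by
  rw [pow_diff_eq]
  calc ∑ i ∈ range k, (x + 1) ^ i * x ^ (k - 1 - i)
      ≤ ∑ _i ∈ range k, y ^ (k - 1) := by
        refine Finset.sum_le_sum fun i hi => ?_
        have hik : i + (k - 1 - i) = k - 1 := by
          have := Finset.mem_range.1 hi
          omega
        calc (x + 1) ^ i * x ^ (k - 1 - i) ≤ y ^ i * y ^ (k - 1 - i) :=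
              mul_le_mul (pow_le_pow_left₀ (by linarith) hxy i)
                (pow_le_pow_left₀ hx (by linarith) _) (by positivity)
                (pow_nonneg (by linarith) i)
          _ = y ^ (k - 1) := by rw [← pow_add, hik]
    _ = (k : ℝ) * y ^ (k - 1) := by simp
    _ ≤ 2 ^ k * y ^ (k - 1) := by
        have h1 : (k : ℝ) ≤ 2 ^ k := by exact_mod_cast (Nat.lt_two_pow_self (n := k)).le
        have h2 : 0 ≤ y := by linarith
        gcongr

theorem pow_diff_mono (k : ℕ) (x : ℝ) (hx : 0 ≤ x) :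
    (x + 1) ^ k - x ^ k ≤ (x + 2) ^ k - (x + 1) ^ k := by
  have e : (x + 2) ^ k - (x + 1) ^ k = ((x + 1) + 1) ^ k - (x + 1) ^ k := by
    rw [show x + 2 = (x + 1) + 1 by ring]
  rw [e, pow_diff_eq, pow_diff_eq]
  refine Finset.sum_le_sum fun i _ => ?_
  gcongr
  · linarith
  · linarith

theorem W_eq_int (k N : ℕ) (β η : ℝ) :
    W k N β η = ∑ n ∈ Icc (1 : ℤ) N, ee (β * (n : ℝ) ^ k + η * (n : ℝ)) := by
  unfold W
  refine Finset.sum_nbij' (fun n : ℕ => (n : ℤ)) (fun n : ℤ => n.toNat) ?_ ?_ ?_ ?_ ?_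
  · intro n hn
    rw [mem_Icc] at hn ⊢
    omega
  · intro n hn
    rw [mem_Icc] at hn ⊢
    omega
  · intro n _
    simp
  · intro n hn
    rw [mem_Icc] at hn
    omega
  · intro n _
    simp

theorem vfa (k : ℕ) (_hk : 1 ≤ k) (kul : KulStmt) : VfaStmt k := by
  intro N β η δ hN hδ hδ2 h
  rw [W_eq_int]
  set g : ℤ → ℝ := fun n => β * (n : ℝ) ^ k + η * (n : ℝ) with hg
  have hdiff : ∀ n : ℤ, g (n + 1) - g n = β * (((n : ℝ) + 1) ^ k - (n : ℝ) ^ k) + η := by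
    intro n
    simp only [hg]
    push_cast
    ring
  have hdiff2 : ∀ n : ℤ, g (n + 2) - g (n + 1) =
      β * (((n : ℝ) + 2) ^ k - ((n : ℝ) + 1) ^ k) + η := by
    intro n
    simp only [hg]
    push_cast
    ring
  refine kul g 1 N ⌊η⌋ δ hδ hδ2 ?_ ?_
  · rcases le_total 0 β with hβ | hβ
    · left
      intro n hn _
      rw [hdiff, hdiff2]
      have hn0 : (0 : ℝ) ≤ (n : ℝ) := by exact_mod_cast (by omega : (0 : ℤ) ≤ n)
      have := mul_le_mul_of_nonneg_left (pow_diff_mono k n hn0) hβ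
      linarith
    · right
      intro n hn _
      rw [hdiff, hdiff2]
      have hn0 : (0 : ℝ) ≤ (n : ℝ) := by exact_mod_cast (by omega : (0 : ℤ) ≤ n)
      have := mul_le_mul_of_nonpos_left (pow_diff_mono k n hn0) hβ
      linarith
  · intro n hn1 hn2
    rw [hdiff]
    have hn0 : (0 : ℝ) ≤ (n : ℝ) := by exact_mod_cast (by omega : (0 : ℤ) ≤ n)
    have hnN : (n : ℝ) + 1 ≤ (N : ℝ) := by exact_mod_cast (by omega : n + 1 ≤ (N : ℤ))
    have h0 := pow_diff_nonneg k n hn0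
    have h1 := pow_diff_le k n N hn0 hnN
    have h2 : |β * (((n : ℝ) + 1) ^ k - (n : ℝ) ^ k)| ≤ 2 ^ k * |β| * (N : ℝ) ^ (k - 1) := by
      rw [abs_mul, abs_of_nonneg h0]
      calc |β| * (((n : ℝ) + 1) ^ k - (n : ℝ) ^ k) ≤ |β| * (2 ^ k * (N : ℝ) ^ (k - 1)) := by
            gcongr
        _ = _ := by ring
    have h3 := abs_le.1 h2
    have h4 := h ⌊η⌋
    have h5 := h (⌊η⌋ + 1)
    have h6 := Int.floor_le η
    have h7 := Int.lt_floor_add_one η
    rw [abs_of_nonneg (show (0 : ℝ) ≤ η - ((⌊η⌋ : ℤ) : ℝ) by linarith)] at h4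
    push_cast at h5
    rw [abs_of_nonpos (show η - (((⌊η⌋ : ℤ) : ℝ) + 1) ≤ 0 by linarith)] at h5
    constructor
    · linarith
    · linarith

end Pool.Agent.VM.H94
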